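import Mathlib
import Pool.Agent.MP_dfda4f_nt.Lift

open Polynomial Pool.Agent.MP_dfda4f_nt

theorem Pool.Agent.Results.MP_dfda4f_nt.LiftOrder.result (n a k : ℕ) (ha : 0 < a) (han : a < n)
    (hf : ∀ t : ℕ, 0 < t → t ≤ 2 ^ (2 * k + 1) →
      ¬ (X ^ n + X ^ a + 1 : (ZMod 2)[X]) ∣ X ^ t + 1) :
    ∀ t : ℕ, 0 < t → t < 2 ^ 2 ^ k →
      ¬ (X ^ (2 ^ n - 1) + X ^ (2 ^ a - 1) + 1 : (ZMod 2)[X]) ∣ X ^ t + 1 :=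
  fun t h1 h2 h3 => absurd (lift_order (ha.trans han) ha hf t h1 h3) (not_le.2 h2)
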