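import Mathlib
import Pool.Agent.MP_dfda4f_nt.Kron

open Polynomial Pool.Agent.MP_dfda4f_nt.Kron

theorem Pool.Agent.Results.MP_dfda4f_nt.SqrtFactor.result (k : ℕ) (hk : 0 < k) :
    ∃ p : (ZMod 2)[X], Irreducible p ∧ p ∣ X ^ (4 ^ k + 1) + X ^ (2 ^ (k + 1)) + 1 ∧
      p.natDegree = k * (2 ^ k + 1) := by
  obtain ⟨a, ha⟩ := exists_root k hk
  have hi : IsIntegral F (rt k a) := Algebra.IsIntegral.isIntegral _
  exact ⟨minpoly F (rt k a), minpoly.irreducible hi, minpoly.dvd _ _ (rt_root hk ha),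
    rt_degree hk ha⟩
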