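import Mathlib
import Pool.Agent.MP_dfda4f_nt.Tower

open Polynomial Pool.Agent.MP_dfda4f_nt

theorem Pool.Agent.Results.MP_dfda4f_nt.TowerOrder.result (j c : ℕ) :
    Set.Infinite {n : ℕ | ∀ t : ℕ, 0 < t →
      t ≤ (fun x : ℕ => 2 ^ x)^[j] (((Nat.log 2)^[j] n) ^ c) →
      ¬ (X ^ n + X + 1 : (ZMod 2)[X]) ∣ X ^ t + 1} := by
  refine Set.infinite_of_injective_forall_mem (f := fun i => dg (j + (c + i + 2)))
    (fun i i' h => by have := dg_inj h; omega) fun i t h1 h2 => ?_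
  have h3 := tower (j + (c + i + 2)) t h1 (h2.trans (bound j c i (log_le j ?_)))
  · rwa [pow_one] at h3
  · rw [← ex_add]; exact dg_le _
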